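import Pool.Agent.Lib.MP_6bc78b_nt.MS.P4.Iface

/-! Project MS, Part IV, module CERT: the certificate at the multiple zeros. -/

set_option autoImplicit false

open Complex Filter Topology ArithmeticFunction

namespace Pool.Agent.Lib.MP_6bc78b_nt.MS.P4.H70

open Pool.Agent.Lib.MP_6bc78b_nt.MS

/-- The pointwise bound: `z = 1 - be (1 - 1/(2 lam) + B)`. -/
lemma cert_point {lam be e m : ℝ} (B : ℂ) (hbe : 1 / 2 ≤ be) (hbe1 : be ≤ 1)
    (he : 0 < e) (he1 : e ≤ 1 / 2) (hm : 2 ≤ m)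
    (hB : B.re ≤ 1 / (2 * lam) - m / 2 + e) :
    (1 - e) ^ 2 * (1 + be * (m / 2 - 1)) ^ 2 ≤
      ‖1 - (be : ℂ) * (((1 - 1 / (2 * lam) : ℝ) : ℂ) + B)‖ ^ 2 := by
  have hre : (1 - (be : ℂ) * (((1 - 1 / (2 * lam) : ℝ) : ℂ) + B)).re
      = 1 - be * ((1 - 1 / (2 * lam)) + B.re) := by
    rw [Complex.sub_re, Complex.re_ofReal_mul, Complex.add_re, Complex.ofReal_re, Complex.one_re]
  have h1 : be * ((1 - 1 / (2 * lam)) + B.re) ≤ be * (1 - m / 2 + e) :=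
    mul_le_mul_of_nonneg_left (by linarith) (by linarith)
  have hx : 0 ≤ be * (m / 2 - 1) := mul_nonneg (by linarith) (by linarith)
  have h2 : (1 - e) * (1 + be * (m / 2 - 1)) ≤
      (1 - (be : ℂ) * (((1 - 1 / (2 * lam) : ℝ) : ℂ) + B)).re := by
    rw [hre]
    have h3 : be * e ≤ 1 * e := mul_le_mul_of_nonneg_right hbe1 he.le
    have h4 : 0 ≤ e * (be * (m / 2 - 1)) := mul_nonneg he.le hx
    nlinarith
  have h0 : 0 ≤ (1 - e) * (1 + be * (m / 2 - 1)) := mul_nonneg (by linarith) (by linarith)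
  calc (1 - e) ^ 2 * (1 + be * (m / 2 - 1)) ^ 2
      = ((1 - e) * (1 + be * (m / 2 - 1))) ^ 2 := by ring
    _ ≤ ((1 - (be : ℂ) * (((1 - 1 / (2 * lam) : ℝ) : ℂ) + B)).re) ^ 2 :=
        pow_le_pow_left₀ h0 h2 2
    _ ≤ ‖1 - (be : ℂ) * (((1 - 1 / (2 * lam) : ℝ) : ℂ) + B)‖ ^ 2 := by
        rw [← sq_abs ((1 - (be : ℂ) * (((1 - 1 / (2 * lam) : ℝ) : ℂ) + B)).re)]
        exact pow_le_pow_left₀ (abs_nonneg _) (Complex.abs_re_le_norm _) 2

/-- (CERT) the certificate. -/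
theorem cert (hPT : PTStatement) (hz : ZfacStatement) : CertStatement := by
  intro th lam c1 c2 be ε hlam0 hlam hbe hbe1 hε
  set e : ℝ := min (ε / 2) (1 / 2) with he
  have he0 : 0 < e := lt_min (by linarith) (by norm_num)
  have he1 : e ≤ 1 / 2 := min_le_right _ _
  have he2 : e ≤ ε / 2 := min_le_left _ _
  have hee : 1 - ε ≤ (1 - e) ^ 2 := by nlinarith [sq_nonneg e]
  filter_upwards [hPT lam e hlam0 hlam he0] with T hT
  have hf : (zset T).Finite := hz.2.2.2.2.2.2 T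
  have hf2 : {γ | γ ∈ zset T ∧ 2 ≤ mz γ}.Finite := hf.subset fun γ hγ => hγ.1
  have hwt : ∀ γ : ℝ, 0 ≤ wt T γ := fun γ => (Real.exp_pos _).le
  -- the summand of `QS`
  set F : ℝ → ℝ := fun γ => (mz γ : ℝ) * wt T γ *
    ‖1 - vv th c1 c2 T (1 / 2 + γ * I) / (Real.log T : ℂ)
      - (be : ℂ) * (((1 - 1 / (2 * lam) : ℝ) : ℂ) + BB lam T (1 / 2 + γ * I))‖ ^ 2 with hF
  have hF0 : ∀ γ : ℝ, 0 ≤ F γ := fun γ =>
    mul_nonneg (mul_nonneg (Nat.cast_nonneg _) (hwt γ)) (sq_nonneg _)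
  have hQS : QS th lam c1 c2 be T = ∑ γ ∈ hf.toFinset, F γ := by
    unfold QS
    rw [finsum_mem_eq_finite_toFinset_sum _ hf]
  -- the bound at a multiple zero
  have key : ∀ γ ∈ zset T, 2 ≤ mz γ →
      (mz γ : ℝ) * wt T γ * ((1 - e) ^ 2 * (1 + be * ((mz γ : ℝ) / 2 - 1)) ^ 2) ≤ F γ := by
    intro γ hγ hm
    have hv : vv th c1 c2 T (1 / 2 + γ * I) = 0 := by
      unfold vv
      rw [hz.2.2.2.2.1 γ hm, zero_mul]
    have hp := cert_point (lam := lam) (be := be) (e := e) (m := (mz γ : ℝ))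
      (BB lam T (1 / 2 + γ * I)) hbe hbe1 he0 he1 (by exact_mod_cast hm) (hT γ hγ)
    rw [hF]
    dsimp only
    rw [hv, zero_div, sub_zero]
    exact mul_le_mul_of_nonneg_left hp (mul_nonneg (Nat.cast_nonneg _) (hwt γ))
  have e1 : ∑ᶠ (γ : ℝ) (_ : γ ∈ zset T ∧ 2 ≤ mz γ), (mz γ : ℝ) * wt T γ
      = ∑ γ ∈ hf2.toFinset, (mz γ : ℝ) * wt T γ := finsum_mem_eq_finite_toFinset_sum _ hf2
  have e2 : ∑ᶠ (γ : ℝ) (_ : γ ∈ zset T), ((mz γ : ℝ) - 1) * wt T γ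
      = ∑ γ ∈ hf.toFinset, ((mz γ : ℝ) - 1) * wt T γ := finsum_mem_eq_finite_toFinset_sum _ hf
  rw [hQS]
  rw [e1, e2]
  constructor
  · rw [Finset.mul_sum]
    refine (Finset.sum_le_sum (g := F) fun γ hγ => ?_).trans
      (Finset.sum_le_sum_of_subset_of_nonneg ?_ fun γ _ _ => hF0 γ)
    · rw [Set.Finite.mem_toFinset] at hγ
      refine le_trans ?_ (key γ hγ.1 hγ.2)
      have hm : (2 : ℝ) ≤ (mz γ : ℝ) := by exact_mod_cast hγ.2
      have hx : 0 ≤ be * ((mz γ : ℝ) / 2 - 1) := mul_nonneg (by linarith) (by linarith)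
      have h1 : (1 : ℝ) ≤ (1 + be * ((mz γ : ℝ) / 2 - 1)) ^ 2 := one_le_pow₀ (by linarith)
      have h2 : 1 - ε ≤ (1 - e) ^ 2 * (1 + be * ((mz γ : ℝ) / 2 - 1)) ^ 2 :=
        hee.trans (le_mul_of_one_le_right (sq_nonneg _) h1)
      rw [mul_comm]
      exact mul_le_mul_of_nonneg_left h2 (mul_nonneg (Nat.cast_nonneg _) (hwt γ))
    · intro γ hγ
      rw [Set.Finite.mem_toFinset] at hγ ⊢
      exact hγ.1
  · rw [Finset.mul_sum]
    refine Finset.sum_le_sum fun γ hγ => ?_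
    rw [Set.Finite.mem_toFinset] at hγ
    by_cases hm2 : 2 ≤ mz γ
    · refine le_trans ?_ (key γ hγ hm2)
      have hm : (2 : ℝ) ≤ (mz γ : ℝ) := by exact_mod_cast hm2
      set m : ℝ := (mz γ : ℝ) with hmdef
      have hx : 0 ≤ be * (m / 2 - 1) := mul_nonneg (by linarith) (by linarith)
      have h1 : 1 + be * (m - 2) ≤ (1 + be * (m / 2 - 1)) ^ 2 := by
        nlinarith [sq_nonneg (be * (m / 2 - 1))]
      have h2 : 2 * (m - 1) ≤ m * (1 + be * (m - 2)) := by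
        have h3 : 0 ≤ (m - 2) * (be * m - 1) :=
          mul_nonneg (by linarith) (by nlinarith)
        nlinarith
      have h4 : 2 * (m - 1) ≤ m * (1 + be * (m / 2 - 1)) ^ 2 :=
        h2.trans (mul_le_mul_of_nonneg_left h1 (by linarith))
      have h5 : (1 - ε) * (2 * (m - 1)) ≤ (1 - e) ^ 2 * (m * (1 + be * (m / 2 - 1)) ^ 2) :=
        (mul_le_mul_of_nonneg_right hee (by linarith)).trans
          (mul_le_mul_of_nonneg_left h4 (sq_nonneg _))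
      calc 2 * (1 - ε) * ((m - 1) * wt T γ) = ((1 - ε) * (2 * (m - 1))) * wt T γ := by ring
        _ ≤ ((1 - e) ^ 2 * (m * (1 + be * (m / 2 - 1)) ^ 2)) * wt T γ :=
            mul_le_mul_of_nonneg_right h5 (hwt γ)
        _ = m * wt T γ * ((1 - e) ^ 2 * (1 + be * (m / 2 - 1)) ^ 2) := by ring
    · have h1 : 1 ≤ mz γ := hz.2.2.1 γ hγ.2.2
      have h2 : mz γ = 1 := by omega
      rw [h2]
      simpa using hF0 γ

end Pool.Agent.Lib.MP_6bc78b_nt.MS.P4.H70
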