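import Pool.Agent.Lib.MP_6bc78b_nt.MS.P4.Iface

/-! Project MS, Part IV, module NUM: explicit parameters. -/

set_option autoImplicit false

namespace Pool.Agent.Lib.MP_6bc78b_nt.MS.P4.H70

open Pool.Agent.Lib.MP_6bc78b_nt.MS

/-- (NUM) an explicit choice of the parameters with `QQ < 0.292949`. -/
theorem num : NumStatement := by
  refine ⟨4999999 / 10000000, 9999999 / 10000000, 11036 / 10000, -5314 / 10000, 701 / 1000,
    by norm_num, by norm_num, by norm_num, by norm_num, by norm_num, by norm_num, ?_⟩
  unfold QQ m3 m2 m1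
  norm_num

end Pool.Agent.Lib.MP_6bc78b_nt.MS.P4.H70
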