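import Pool.Agent.Lib.MP_6bc78b_nt.MS.P4.Iface

/-! Project MS, Part IV, module QSA: the exact expansion of the quadratic form. -/

set_option autoImplicit false

open Complex Filter Topology ArithmeticFunction

namespace Pool.Agent.Lib.MP_6bc78b_nt.MS.P4.H70

open Pool.Agent.Lib.MP_6bc78b_nt.MS

/-- On the critical line the weight is real. -/
lemma WW_half (T γ : ℝ) : WW T (1 / 2 + γ * I) = ((wt T γ : ℝ) : ℂ) := by
  unfold WW wt
  rw [Complex.ofReal_exp]
  congr 1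
  push_cast
  have h : ((1 / 2 : ℂ) + (γ : ℂ) * I - 1 / 2 - (T : ℂ) * I) ^ 2 = -((γ : ℂ) - T) ^ 2 := by
    have : ((1 / 2 : ℂ) + (γ : ℂ) * I - 1 / 2 - (T : ℂ) * I) = ((γ : ℂ) - T) * I := by ring
    rw [this, mul_pow, I_sq]
    ring
  rw [h]

/-- A sum over the zeros as a finite sum. -/
lemma ZS_eq_sum {T : ℝ} (hf : (zset T).Finite) (F : ℂ → ℂ) :
    ZS T F = ∑ γ ∈ hf.toFinset, (mz γ : ℂ) * ((wt T γ : ℝ) : ℂ) * F (1 / 2 + γ * I) := by
  unfold ZS
  rw [finsum_mem_eq_finite_toFinset_sum _ hf]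
  exact Finset.sum_congr rfl fun γ _ => by rw [WW_half]

/-- Its real part. -/
lemma ZS_re_eq_sum {T : ℝ} (hf : (zset T).Finite) (F : ℂ → ℂ) :
    (ZS T F).re = ∑ γ ∈ hf.toFinset, (mz γ : ℝ) * wt T γ * (F (1 / 2 + γ * I)).re := by
  rw [ZS_eq_sum hf, Complex.re_sum]
  refine Finset.sum_congr rfl fun γ _ => ?_
  have h : (mz γ : ℂ) * ((wt T γ : ℝ) : ℂ) = (((mz γ : ℝ) * wt T γ : ℝ) : ℂ) := by push_cast; ring
  rw [h, Complex.re_ofReal_mul]

/-- The quadratic form as a finite sum. -/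
lemma QS_eq_sum {T : ℝ} (hf : (zset T).Finite) (th lam c1 c2 be : ℝ) :
    QS th lam c1 c2 be T = ∑ γ ∈ hf.toFinset, (mz γ : ℝ) * wt T γ *
    ‖1 - vv th c1 c2 T (1 / 2 + γ * I) / (Real.log T : ℂ)
      - (be : ℂ) * (((1 - 1 / (2 * lam) : ℝ) : ℂ) + BB lam T (1 / 2 + γ * I))‖ ^ 2 := by
  unfold QS
  rw [finsum_mem_eq_finite_toFinset_sum _ hf]

/-- The pointwise identity. -/
lemma pointwise (v B : ℂ) (L be c : ℝ) :
    ‖1 - v / (L : ℂ) - (be : ℂ) * ((c : ℂ) + B)‖ ^ 2 =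
      (1 - be * c) ^ 2 + (v * (starRingEnd ℂ) v).re / L ^ 2 + be ^ 2 * (B * (starRingEnd ℂ) B).re
      - 2 * (1 - be * c) * v.re / L - 2 * be * (1 - be * c) * B.re
      + 2 * be * (v * (starRingEnd ℂ) B).re / L := by
  rw [Complex.sq_norm, Complex.normSq_apply]
  have hre : (1 - v / (L : ℂ) - (be : ℂ) * ((c : ℂ) + B)).re = 1 - v.re / L - be * (c + B.re) := by
    rw [Complex.sub_re, Complex.sub_re, Complex.div_ofReal_re, Complex.re_ofReal_mul,
      Complex.add_re, Complex.ofReal_re, Complex.one_re]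
  have him : (1 - v / (L : ℂ) - (be : ℂ) * ((c : ℂ) + B)).im = - v.im / L - be * B.im := by
    rw [Complex.sub_im, Complex.sub_im, Complex.div_ofReal_im, Complex.im_ofReal_mul,
      Complex.add_im, Complex.ofReal_im, Complex.one_im]
    ring
  rw [hre, him]
  simp only [Complex.mul_re, Complex.conj_re, Complex.conj_im]
  ring

/-- (QSA) the exact expansion. -/
theorem qsa (hz : ZfacStatement) : QsaStatement := by
  intro th lam c1 c2 be T _
  have hf : (zset T).Finite := hz.2.2.2.2.2.2 T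
  rw [QS_eq_sum hf, ZS_re_eq_sum hf, ZS_re_eq_sum hf, ZS_re_eq_sum hf, ZS_re_eq_sum hf,
    ZS_re_eq_sum hf, ZS_re_eq_sum hf]
  simp only [Finset.mul_sum, Finset.sum_div]
  rw [← Finset.sum_add_distrib, ← Finset.sum_add_distrib, ← Finset.sum_sub_distrib,
    ← Finset.sum_sub_distrib, ← Finset.sum_add_distrib]
  refine Finset.sum_congr rfl fun γ _ => ?_
  rw [pointwise]
  simp only [Complex.one_re]
  ring

end Pool.Agent.Lib.MP_6bc78b_nt.MS.P4.H70
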