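import Pool.Agent.Lib.MP_6bc78b_nt.MS.P4.Iface

/-! Project MS, Part IV, module QSL: the limit of the quadratic form. -/

set_option autoImplicit false

open Complex Filter Topology ArithmeticFunction

namespace Pool.Agent.Lib.MP_6bc78b_nt.MS.P4.H70

open Pool.Agent.Lib.MP_6bc78b_nt.MS

/-- `T / (cG T * log T ^ k)` tends to `0` for `k ≥ 1`. -/
lemma tendsto_T_div (k : ℕ) (hk : 1 ≤ k) :
    Tendsto (fun T : ℝ => T / (cG T * Real.log T ^ k)) atTop (𝓝 0) := by
  have hk' : (1 : ℝ) ≤ k := by exact_mod_cast hk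
  have h1 : Tendsto (fun T : ℝ => 2 * Real.sqrt Real.pi * Real.log T ^ (-((k : ℝ) - 2 / 3)))
      atTop (𝓝 0) := by
    have h2 : Tendsto (fun T : ℝ => Real.log T ^ (-((k : ℝ) - 2 / 3))) atTop (𝓝 0) :=
      (tendsto_rpow_neg_atTop (by linarith : (0 : ℝ) < (k : ℝ) - 2 / 3)).comp
        Real.tendsto_log_atTop
    simpa using h2.const_mul (2 * Real.sqrt Real.pi)
  refine h1.congr' ?_
  filter_upwards [eventually_gt_atTop (1 : ℝ)] with T hT
  have hL : 0 < Real.log T := Real.log_pos hT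
  have hT0 : T ≠ 0 := by linarith
  have hpi : Real.sqrt Real.pi ≠ 0 := (Real.sqrt_pos.mpr Real.pi_pos).ne'
  have hLr : Real.log T ^ (2 / 3 : ℝ) ≠ 0 := (Real.rpow_pos_of_pos hL _).ne'
  have hLk : Real.log T ^ k ≠ 0 := pow_ne_zero _ hL.ne'
  have e : Real.log T ^ (-((k : ℝ) - 2 / 3)) = Real.log T ^ (2 / 3 : ℝ) / Real.log T ^ k := by
    rw [show (-((k : ℝ) - 2 / 3)) = (2 / 3 : ℝ) - (k : ℝ) by ring, Real.rpow_sub hL,
      Real.rpow_natCast]
  rw [e]
  unfold cG DD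
  field_simp

/-- `o(T) / (cG T * log T ^ k)` tends to `0`. -/
lemma tendsto_div_of {F : ℝ → ℝ} (k : ℕ) (hk : 1 ≤ k)
    (h : Tendsto (fun T : ℝ => F T / T) atTop (𝓝 0)) :
    Tendsto (fun T : ℝ => F T / (cG T * Real.log T ^ k)) atTop (𝓝 0) := by
  have h1 := h.mul (tendsto_T_div k hk)
  rw [mul_zero] at h1
  refine h1.congr' ?_
  filter_upwards [eventually_gt_atTop (1 : ℝ)] with T hT
  have hT0 : T ≠ 0 := by linarith
  rw [div_mul_div_comm, mul_comm T, mul_div_mul_right _ _ hT0]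

/-- A linear combination of three limits. -/
lemma comb {S0 S1 S2 : ℝ → ℂ} {P0 P1 P2 : ℝ → ℝ} (a0 a1 a2 : ℝ)
    (h0 : Tendsto (fun T : ℝ => (S0 T - (P0 T : ℂ)) / T) atTop (𝓝 0))
    (h1 : Tendsto (fun T : ℝ => (S1 T - (P1 T : ℂ)) / T) atTop (𝓝 0))
    (h2 : Tendsto (fun T : ℝ => (S2 T - (P2 T : ℂ)) / T) atTop (𝓝 0)) :
    Tendsto (fun T : ℝ => ((a0 : ℂ) * S0 T - (a1 : ℂ) * S1 T + (a2 : ℂ) * S2 T
      - ((a0 * P0 T - a1 * P1 T + a2 * P2 T : ℝ) : ℂ)) / T) atTop (𝓝 0) := by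
  have h := ((h0.const_mul (a0 : ℂ)).sub (h1.const_mul (a1 : ℂ))).add (h2.const_mul (a2 : ℂ))
  simp only [mul_zero, sub_zero, add_zero] at h
  refine h.congr fun T => ?_
  push_cast
  ring

/-- From `Z + conj S = o(T)` and `S = P + o(T)` with `P` real to `Re Z + P = o(T)`. -/
lemma re_add {Z S : ℝ → ℂ} {P : ℝ → ℝ}
    (h : Tendsto (fun T : ℝ => (Z T + (starRingEnd ℂ) (S T)) / T) atTop (𝓝 0))
    (h' : Tendsto (fun T : ℝ => (S T - (P T : ℂ)) / T) atTop (𝓝 0)) :
    Tendsto (fun T : ℝ => ((Z T).re + P T) / T) atTop (𝓝 0) := by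
  have h1 := (Complex.continuous_re.tendsto _).comp h
  have h2 := (Complex.continuous_re.tendsto _).comp h'
  have h3 := h1.sub h2
  simp only [Complex.zero_re, sub_zero] at h3
  refine h3.congr fun T => ?_
  simp only [Function.comp, Complex.div_ofReal_re, Complex.add_re, Complex.sub_re,
    Complex.conj_re, Complex.ofReal_re]
  ring

/-- The limit from `Re Z + P = o(T)` and `P / (cG log^k) -> l`. -/
lemma lim_of {Z P : ℝ → ℝ} {l : ℝ} (k : ℕ) (hk : 1 ≤ k)
    (h : Tendsto (fun T : ℝ => (Z T + P T) / T) atTop (𝓝 0))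
    (h' : Tendsto (fun T : ℝ => P T / (cG T * Real.log T ^ k)) atTop (𝓝 (-l))) :
    Tendsto (fun T : ℝ => Z T / (cG T * Real.log T ^ k)) atTop (𝓝 l) := by
  have h1 := (tendsto_div_of k hk h).sub h'
  simp only [zero_sub, neg_neg] at h1
  refine h1.congr fun T => ?_
  ring

/-- (QSL) the limit of the quadratic form. -/
theorem qsl (hQ : QsaStatement) (hZN : ZNStatement) (hZV : ZVStatement) (hZVB : ZVBStatement)
    (hZVV : ZVVStatement) (hZB : ZBStatement) (hZBB : ZBBStatement) (hNP : NPStatement)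
    (hLV : LVStatement) (hLVB : LVBStatement) (hLVV : LVVStatement) : QslStatement := by
  intro th lam c1 c2 be hth0 hth hthl hlam
  have hlam0 : 0 < lam := hth0.trans hthl
  have np := hNP th lam c1 c2 hth0 hth hlam0 hlam
  -- the first moment of `v`
  have hv : Tendsto (fun T : ℝ => (ZS T (vv th c1 c2 T)).re / (cG T * Real.log T ^ 2)) atTop
      (𝓝 (m1 th c1 c2)) := by
    have n0 := np (fun _ => La * lg) ⟨La, lg, 1, Or.inr rfl, Or.inr rfl, Or.inl rfl,
      Or.inl fun T => by rw [mul_one]⟩ 0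
    have n1 := np (fun _ => lg) ⟨1, lg, 1, Or.inl rfl, Or.inr rfl, Or.inl rfl,
      Or.inl fun T => by rw [mul_one, one_mul]⟩ 1
    have n2 := np (fun _ => one) ⟨1, one, 1, Or.inl rfl, Or.inl rfl, Or.inl rfl,
      Or.inl fun T => by rw [mul_one, one_mul]⟩ 2
    have nn := comb 1 2 1 n0 n1 n2
    simp only [Complex.ofReal_one, one_mul] at nn
    have e2 : ((2 : ℝ) : ℂ) = 2 := by norm_num
    rw [e2] at nn
    exact lim_of 2 (by norm_num) (re_add (hZV th c1 c2 hth0 hth) nn) (hLV th c1 c2 hth0 hth)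
  -- the mixed moment
  have hvb : Tendsto (fun T : ℝ => (ZS T (fun s => vv th c1 c2 T s *
      (starRingEnd ℂ) (BB lam T s))).re / (cG T * Real.log T ^ 2)) atTop
      (𝓝 (m3 th lam c1 c2)) := by
    have n0 := np (fun T => La * lg * bb lam T) ⟨La, lg, 1, Or.inr rfl, Or.inr rfl, Or.inl rfl,
      Or.inr (Or.inr fun T => by rw [mul_one])⟩ 0
    have n1 := np (fun T => lg * bb lam T) ⟨1, lg, 1, Or.inl rfl, Or.inr rfl, Or.inl rfl,
      Or.inr (Or.inr fun T => by rw [mul_one, one_mul])⟩ 1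
    have n2 := np (fun T => one * bb lam T) ⟨1, one, 1, Or.inl rfl, Or.inl rfl, Or.inl rfl,
      Or.inr (Or.inr fun T => by rw [mul_one, one_mul])⟩ 2
    have nn := comb 1 2 1 n0 n1 n2
    simp only [Complex.ofReal_one, one_mul] at nn
    have e2 : ((2 : ℝ) : ℂ) = 2 := by norm_num
    rw [e2] at nn
    exact lim_of 2 (by norm_num) (re_add (hZVB th lam c1 c2 hth0 hth hlam0 hlam) nn)
      (hLVB th lam c1 c2 hth0 hth hthl hlam)
  -- the second moment of `v`
  have hvv : Tendsto (fun T : ℝ => (ZS T (fun s => vv th c1 c2 T s *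
      (starRingEnd ℂ) (vv th c1 c2 T s))).re / (cG T * Real.log T ^ 3)) atTop
      (𝓝 (m2 th c1 c2)) := by
    have n0 := np (fun T => La * lg * lg * bet th c1 c2 T) ⟨La, lg, lg, Or.inr rfl, Or.inr rfl,
      Or.inr (Or.inr rfl), Or.inr (Or.inl fun T => rfl)⟩ 0
    have n1 := np (fun T => lg * lg * bet th c1 c2 T) ⟨1, lg, lg, Or.inl rfl, Or.inr rfl,
      Or.inr (Or.inr rfl), Or.inr (Or.inl fun T => by rw [one_mul])⟩ 1
    have n2 := np (fun T => one * lg * bet th c1 c2 T) ⟨1, one, lg, Or.inl rfl, Or.inl rfl,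
      Or.inr (Or.inr rfl), Or.inr (Or.inl fun T => by rw [one_mul])⟩ 2
    have nn := comb 2 3 1 n0 n1 n2
    simp only [Complex.ofReal_one, one_mul] at nn
    have e2 : ((2 : ℝ) : ℂ) = 2 := by norm_num
    have e3 : ((3 : ℝ) : ℂ) = 3 := by norm_num
    rw [e2, e3] at nn
    have nr := (Complex.continuous_re.tendsto _).comp nn
    simp only [Complex.zero_re] at nr
    have hs := (hZVV th c1 c2 hth0 hth).add nr
    rw [add_zero] at hs
    have hs' : Tendsto (fun T : ℝ => ((ZS T (fun s => vv th c1 c2 T s *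
        (starRingEnd ℂ) (vv th c1 c2 T s))).re
        + -(2 * Psum th c1 c2 T 0 (La * lg * lg * bet th c1 c2 T)
          - 3 * Psum th c1 c2 T 1 (lg * lg * bet th c1 c2 T)
          + Psum th c1 c2 T 2 (one * lg * bet th c1 c2 T))) / T) atTop (𝓝 0) := by
      refine hs.congr fun T => ?_
      simp only [Function.comp, Complex.div_ofReal_re, Complex.sub_re, Complex.ofReal_re]
      ring
    refine lim_of 3 (by norm_num) hs' ?_
    refine ((hLVV th c1 c2 hth0 hth).neg).congr fun T => ?_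
    rw [neg_div]
  have hB := hZB lam hlam0 hlam
  have hBB := hZBB lam hlam0 hlam
  set a : ℝ := 1 - be * (1 - 1 / (2 * lam)) with ha
  have total := ((((((hZN.const_mul (a ^ 2)).add hvv).add (hBB.const_mul (be ^ 2))).sub
    (hv.const_mul (2 * a))).sub (hB.const_mul (2 * be * a))).add (hvb.const_mul (2 * be)))
  have hlim : a ^ 2 * 1 + m2 th c1 c2 + be ^ 2 * (1 / 12) - 2 * a * m1 th c1 c2
      - 2 * be * a * (-(lam / 6)) + 2 * be * m3 th lam c1 c2 = QQ th lam c1 c2 be := by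
    rw [ha]
    unfold QQ
    ring
  rw [hlim] at total
  refine total.congr' ?_
  filter_upwards [eventually_gt_atTop (1 : ℝ)] with T hT
  rw [hQ th lam c1 c2 be T hT, ← ha]
  ring

end Pool.Agent.Lib.MP_6bc78b_nt.MS.P4.H70
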